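import Mathlib

set_option autoImplicit false

universe u v

namespace Pool.Agent.Results.MP_44b994_al.SkewFieldOre

/-- `R` is an RD ring (for left modules): every RD-pure submodule of a left `R`-module is pure.
The wording is the one of the frozen statement. -/
def IsRD (R : Type u) [Ring R] : Prop :=
  ∀ (M : Type u) [AddCommGroup M] [Module R M] (N : Submodule R M),
    (∀ (r : R) (x : M), r • x ∈ N → ∃ y ∈ N, r • y = r • x) →
    ∀ (m n : ℕ) (A : Matrix (Fin m) (Fin n) R) (x : Fin n → M),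
      (∀ i, (∑ j, A i j • x j) ∈ N) →
      ∃ y : Fin n → M, (∀ j, y j ∈ N) ∧
        ∀ i, (∑ j, A i j • y j) = ∑ j, A i j • x j

section split

variable {R : Type u} [Ring R] {M : Type u} [AddCommGroup M] [Module R M]

/-- pairs `(r, m)` with `r m = 0` -/
abbrev Idx (R : Type u) [Ring R] (M : Type u) [AddCommGroup M] [Module R M] : Type u :=
  {p : R × M // p.1 • p.2 = 0}

/-- the relations `r e_p = 0` for `p = (r, m)` -/
def W (R : Type u) [Ring R] (M : Type u) [AddCommGroup M] [Module R M] :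
    Submodule R (Idx R M →₀ R) where
  carrier := {w | ∀ p, ∃ c, w p = c * p.1.1}
  add_mem' := by
    intro a b ha hb p
    obtain ⟨c, hc⟩ := ha p
    obtain ⟨d, hd⟩ := hb p
    exact ⟨c + d, by rw [Finsupp.add_apply, hc, hd, add_mul]⟩
  zero_mem' := fun p => ⟨0, by simp⟩
  smul_mem' := by
    intro r a ha p
    obtain ⟨c, hc⟩ := ha p
    exact ⟨r * c, by rw [Finsupp.smul_apply, hc, smul_eq_mul, mul_assoc]⟩

theorem mem_W {w : Idx R M →₀ R} : w ∈ W R M ↔ ∀ p, ∃ c, w p = c * p.1.1 := Iff.rfl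

/-- the canonical map from the direct sum of the cyclically presented modules `R/Rr`, one for each
pair `(r, m)` with `r m = 0`, onto `M` -/
noncomputable def proj (R : Type u) [Ring R] (M : Type u) [AddCommGroup M] [Module R M] :
    ((Idx R M →₀ R) ⧸ W R M) →ₗ[R] M :=
  (W R M).liftQ (Finsupp.linearCombination R (fun p : Idx R M => p.1.2)) (by
    intro w hw
    rw [LinearMap.mem_ker, Finsupp.linearCombination_apply]
    apply Finset.sum_eq_zero
    intro p _
    obtain ⟨c, hc⟩ := hw p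
    show w p • p.1.2 = 0
    rw [hc, mul_smul, p.2, smul_zero])

theorem proj_mk (w : Idx R M →₀ R) :
    proj R M (Submodule.Quotient.mk w) = Finsupp.linearCombination R (fun p : Idx R M => p.1.2) w :=
  rfl

/-- the generator with index `(r, m)` -/
noncomputable def gen (p : Idx R M) : (Idx R M →₀ R) ⧸ W R M :=
  Submodule.Quotient.mk (Finsupp.single p 1)

theorem proj_gen (p : Idx R M) : proj R M (gen p) = p.1.2 := by
  unfold gen
  rw [proj_mk]
  simp

theorem smul_gen (p : Idx R M) : p.1.1 • gen p = 0 := by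
  classical
  unfold gen
  rw [← Submodule.Quotient.mk_smul, Submodule.Quotient.mk_eq_zero, mem_W]
  intro q
  by_cases h : q = p
  · subst h
    exact ⟨1, by simp⟩
  · exact ⟨0, by simp [Ne.symm h]⟩

/-- Over an RD ring every solution in `M` of a finite homogeneous system comes from a solution in a
direct sum of cyclically presented modules. -/
theorem exists_split (hRD : IsRD R) (m n : ℕ) (A : Matrix (Fin m) (Fin n) R) (x : Fin n → M)
    (hx : ∀ i, (∑ j, A i j • x j) = 0) :
    ∃ (I : Finset (Idx R M)) (U : Fin n → Idx R M → R) (C : Fin m → Idx R M → R),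
      (∀ j, x j = ∑ p ∈ I, U j p • p.1.2) ∧
      (∀ i p, (∑ j, A i j * U j p) = C i p * p.1.1) := by
  classical
  let K : Submodule R ((Idx R M →₀ R) ⧸ W R M) := LinearMap.ker (proj R M)
  have hpure : ∀ (r : R) (z : (Idx R M →₀ R) ⧸ W R M), r • z ∈ K → ∃ y ∈ K, r • y = r • z := by
    intro r z hz
    have h0 : r • proj R M z = 0 := by
      rw [← map_smul]; exact hz
    refine ⟨z - gen ⟨(r, proj R M z), h0⟩, ?_, ?_⟩
    · show proj R M _ = 0
      rw [map_sub, proj_gen, sub_self]
    · rw [smul_sub]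
      have := smul_gen (R := R) (M := M) ⟨(r, proj R M z), h0⟩
      rw [this, sub_zero]
  let x0 : Fin n → ((Idx R M →₀ R) ⧸ W R M) := fun j => gen ⟨(0, x j), zero_smul _ _⟩
  have hx0 : ∀ j, proj R M (x0 j) = x j := fun j => proj_gen _
  obtain ⟨y, hyK, hy⟩ := hRD _ K hpure m n A x0 (by
    intro i
    show proj R M _ = 0
    rw [map_sum, ← hx i]
    exact Finset.sum_congr rfl (fun j _ => by rw [map_smul, hx0]))
  have hz : ∀ j, ∃ w : Idx R M →₀ R, Submodule.Quotient.mk w = x0 j - y j :=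
    fun j => Submodule.Quotient.mk_surjective _ _
  choose w hw using hz
  have hrow : ∀ i, (∑ j, A i j • w j) ∈ W R M := by
    intro i
    rw [← Submodule.Quotient.mk_eq_zero]
    have : (Submodule.Quotient.mk (∑ j, A i j • w j) : (Idx R M →₀ R) ⧸ W R M)
        = ∑ j, A i j • (x0 j - y j) := by
      rw [← Submodule.mkQ_apply, map_sum]
      exact Finset.sum_congr rfl (fun j _ => by rw [map_smul, Submodule.mkQ_apply, hw])
    rw [this]
    simp only [smul_sub, Finset.sum_sub_distrib, hy i, sub_self]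
  choose C hC using fun i => mem_W.1 (hrow i)
  refine ⟨Finset.univ.biUnion (fun j => (w j).support), fun j p => w j p, C, ?_, ?_⟩
  · intro j
    have h1 : proj R M (Submodule.Quotient.mk (w j)) = x j := by
      have h2 : proj R M (y j) = 0 := hyK j
      rw [hw, map_sub, hx0, h2, sub_zero]
    rw [proj_mk, Finsupp.linearCombination_apply] at h1
    rw [← h1]
    apply Finsupp.sum_of_support_subset
    · exact Finset.subset_biUnion_of_mem (fun j => (w j).support) (Finset.mem_univ j)
    · intro p _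
      simp
  · intro i p
    rw [← hC i p, Finsupp.finsetSum_apply]
    simp

end split

section main

variable {R : Type u} [Ring R] [IsDomain R] {S : Type v} [Ring S] [Nontrivial S]

/-- the left Ore condition -/
theorem left_ore (hRD : IsRD R) (f : R →+* S) (hf : ∀ r : R, r ≠ 0 → IsUnit (f r))
    {a b : R} (ha : a ≠ 0) (hb : b ≠ 0) : ∃ x y : R, x ≠ 0 ∧ y ≠ 0 ∧ x * a = y * b := by
  classical
  by_contra hno
  have ind : ∀ x y : R, x * a + y * b = 0 → x = 0 := by
    intro x y hxy
    by_contra hx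
    apply hno
    refine ⟨x, -y, hx, ?_, ?_⟩
    · intro hy
      rw [neg_eq_zero.1 hy, zero_mul, add_zero] at hxy
      exact (mul_ne_zero hx ha) hxy
    · rw [neg_mul]; exact eq_neg_of_add_eq_zero_left hxy
  -- the module `R/(Ra+Rb)`
  let N : Submodule R R := Submodule.span R {a, b}
  let q : R → R ⧸ N := fun r => Submodule.Quotient.mk r
  have hq0 : ∀ r, q r = 0 ↔ ∃ e g, e * a + g * b = r := by
    intro r
    show Submodule.Quotient.mk r = 0 ↔ _
    rw [Submodule.Quotient.mk_eq_zero, Submodule.mem_span_pair]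
    simp only [smul_eq_mul]
  obtain ⟨I, U, C, hx, hC⟩ := exists_split hRD 2 1 (!![a; b]) (fun _ => q 1) (by
    intro i
    rw [Fin.sum_univ_one]
    show q ((!![a; b] : Matrix (Fin 2) (Fin 1) R) i 0 * 1) = 0
    rw [hq0]
    fin_cases i
    · exact ⟨1, 0, by simp⟩
    · exact ⟨0, 1, by simp⟩)
  have hv : ∀ p : Idx R (R ⧸ N), ∃ v, q v = p.1.2 := fun p => Submodule.Quotient.mk_surjective _ _
  choose v hv using hv
  have hrv : ∀ p : Idx R (R ⧸ N), ∃ e g, e * a + g * b = p.1.1 * v p := by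
    intro p
    rw [← hq0]
    show Submodule.Quotient.mk (p.1.1 • v p) = 0
    rw [Submodule.Quotient.mk_smul]
    have := p.2
    rw [← hv p] at this
    exact this
  choose e g heg using hrv
  -- the relation `∑ u_p v_p = 1 + s a + t b`
  have h1 : ∃ s t, s * a + t * b = (∑ p ∈ I, U 0 p * v p) - 1 := by
    rw [← hq0]
    have h2 := hx 0
    have h3 : q (∑ p ∈ I, U 0 p * v p) = ∑ p ∈ I, U 0 p • p.1.2 := by
      show N.mkQ _ = _
      rw [map_sum]
      apply Finset.sum_congr rfl
      intro p _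
      rw [← hv p]
      exact map_smul N.mkQ (U 0 p) (v p)
    show N.mkQ _ = 0
    rw [map_sub, sub_eq_zero]
    exact h3.trans h2.symm
  obtain ⟨s, t, hst⟩ := h1
  have hsum : (∑ p ∈ I, U 0 p * v p) = 1 + (s * a + t * b) := by rw [hst]; abel
  let c : Fin 2 → Idx R (R ⧸ N) → R := fun i p => if p.1.1 = 0 then 0 else C i p
  have hc : ∀ i p, (!![a; b] : Matrix (Fin 2) (Fin 1) R) i 0 * U 0 p = c i p * p.1.1 := by
    intro i p
    have h := hC i p
    rw [Fin.sum_univ_one] at h
    rw [h]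
    by_cases hp : p.1.1 = 0
    · simp [c, hp]
    · simp [c, hp]
  have hca : ∀ p, a * U 0 p = c 0 p * p.1.1 := fun p => by simpa using hc 0 p
  have hcb : ∀ p, b * U 0 p = c 1 p * p.1.1 := fun p => by simpa using hc 1 p
  have key : ∀ (z : R) (i : Fin 2), (∀ p, z * U 0 p = c i p * p.1.1) →
      z * (1 + (s * a + t * b)) = (∑ p ∈ I, c i p * e p) * a + (∑ p ∈ I, c i p * g p) * b := by
    intro z i h
    rw [← hsum, Finset.mul_sum, Finset.sum_mul, Finset.sum_mul, ← Finset.sum_add_distrib]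
    apply Finset.sum_congr rfl
    intro p _
    rw [← mul_assoc, h p, mul_assoc, ← heg p, mul_add, mul_assoc, mul_assoc]
  have e1 : (∑ p ∈ I, c 0 p * e p) = 1 + a * s := by
    have h := key a 0 hca
    have h2 := ind (1 + a * s - ∑ p ∈ I, c 0 p * e p) (a * t - ∑ p ∈ I, c 0 p * g p) (by
      have h3 : a * (1 + (s * a + t * b)) = (1 + a * s) * a + (a * t) * b := by noncomm_ring
      rw [sub_mul, sub_mul, sub_add_sub_comm, ← h3, h, sub_self])
    exact (sub_eq_zero.1 h2).symm
  have e2 : (∑ p ∈ I, c 1 p * e p) = b * s := by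
    have h := key b 1 hcb
    have h2 := ind (b * s - ∑ p ∈ I, c 1 p * e p) (1 + b * t - ∑ p ∈ I, c 1 p * g p) (by
      have h3 : b * (1 + (s * a + t * b)) = (b * s) * a + (1 + b * t) * b := by noncomm_ring
      rw [sub_mul, sub_mul, sub_add_sub_comm, ← h3, h, sub_self])
    exact (sub_eq_zero.1 h2).symm
  -- compare in `S`
  obtain ⟨a', ha'⟩ := (hf a ha)
  have hcd : ∀ p, f (c 1 p) = f b * ↑a'⁻¹ * f (c 0 p) := by
    intro p
    by_cases hp : p.1.1 = 0
    · simp [c, hp]
    · have h1 := congrArg f (hca p)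
      have h2 := congrArg f (hcb p)
      rw [map_mul, map_mul] at h1 h2
      have h3 : f (U 0 p) = ↑a'⁻¹ * (f (c 0 p) * f p.1.1) := by
        rw [← h1, ← ha', Units.inv_mul_cancel_left]
      rw [h3] at h2
      apply (hf _ hp).mul_right_cancel
      rw [← h2]
      simp only [mul_assoc]
  have h4 : f b * ↑a'⁻¹ * f (1 + a * s) = f (b * s) := by
    rw [← e1, ← e2, map_sum, map_sum, Finset.mul_sum]
    apply Finset.sum_congr rfl
    intro p _
    rw [map_mul, map_mul, hcd]
    simp only [mul_assoc]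
  rw [map_add, map_one, map_mul, map_mul, ← ha', mul_add, mul_one, mul_assoc (f b) _ (↑a' * f s),
    Units.inv_mul_cancel_left] at h4
  have h5 : f b * ↑a'⁻¹ = 0 := by simpa using h4
  have h6 : IsUnit (f b * ↑a'⁻¹) := (hf b hb).mul (a'⁻¹).isUnit
  rw [h5] at h6
  exact not_isUnit_zero h6

/-- the right Ore condition -/
theorem right_ore (hRD : IsRD R) (f : R →+* S) (hf : ∀ r : R, r ≠ 0 → IsUnit (f r))
    {a b : R} (ha : a ≠ 0) (hb : b ≠ 0) : ∃ x y : R, x ≠ 0 ∧ y ≠ 0 ∧ a * x = b * y := by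
  classical
  by_contra hno
  have ind : ∀ x y : R, a * x + b * y = 0 → x = 0 := by
    intro x y hxy
    by_contra hx
    apply hno
    refine ⟨x, -y, hx, ?_, ?_⟩
    · intro hy
      rw [neg_eq_zero.1 hy, mul_zero, add_zero] at hxy
      exact (mul_ne_zero ha hx) hxy
    · rw [mul_neg]; exact eq_neg_of_add_eq_zero_left hxy
  -- the module `R²/R(a,b)`
  let N : Submodule R (R × R) := Submodule.span R {(a, b)}
  have hq0 : ∀ r : R × R, N.mkQ r = 0 ↔ ∃ e, e * a = r.1 ∧ e * b = r.2 := by
    intro r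
    rw [Submodule.mkQ_apply, Submodule.Quotient.mk_eq_zero, Submodule.mem_span_singleton]
    simp only [Prod.smul_mk, smul_eq_mul, Prod.ext_iff]
  obtain ⟨I, U, C, hx, hC⟩ := exists_split hRD 1 2 (!![a, b])
    (![N.mkQ (1, 0), N.mkQ (0, 1)]) (by
    intro i
    rw [Fin.sum_univ_two]
    have : (!![a, b] : Matrix (Fin 1) (Fin 2) R) i 0 • N.mkQ (1, 0)
        + (!![a, b] : Matrix (Fin 1) (Fin 2) R) i 1 • N.mkQ (0, 1) = N.mkQ (a, b) := by
      fin_cases i
      simp [← Submodule.Quotient.mk_smul, ← Submodule.Quotient.mk_add]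
    refine this.trans ?_
    rw [hq0]
    exact ⟨1, by simp⟩)
  have hv : ∀ p : Idx R ((R × R) ⧸ N), ∃ v, N.mkQ v = p.1.2 :=
    fun p => Submodule.mkQ_surjective _ _
  choose v hv using hv
  have hrv : ∀ p : Idx R ((R × R) ⧸ N), ∃ e, e * a = p.1.1 * (v p).1 ∧ e * b = p.1.1 * (v p).2 := by
    intro p
    have h := p.2
    rw [← hv p, ← map_smul, hq0] at h
    exact h
  choose e hea heb using hrv
  have h1 : ∃ s, s * a = (∑ p ∈ I, U 0 p * (v p).1) - 1 ∧ s * b = ∑ p ∈ I, U 0 p * (v p).2 := by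
    have h3 : N.mkQ (∑ p ∈ I, U 0 p • v p - (1, 0)) = 0 := by
      rw [map_sub, map_sum, sub_eq_zero]
      refine Eq.trans ?_ (hx 0).symm
      exact Finset.sum_congr rfl (fun p _ => by rw [map_smul, hv])
    obtain ⟨s, h4, h5⟩ := (hq0 _).1 h3
    refine ⟨s, ?_, ?_⟩
    · rw [h4]; simp [Prod.fst_sum]
    · rw [h5]; simp [Prod.snd_sum]
  obtain ⟨s, hsa, hsb⟩ := h1
  have hU0 : ∀ p : Idx R ((R × R) ⧸ N), p.1.1 = 0 → U 0 p = 0 := by
    intro p hp
    have h := hC 0 p
    rw [Fin.sum_univ_two, hp, mul_zero] at h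
    exact ind (U 0 p) (U 1 p) h
  obtain ⟨a', ha'⟩ := (hf a ha)
  have hterm : ∀ p, f (U 0 p * (v p).2) = f (U 0 p * (v p).1) * (↑a'⁻¹ * f b) := by
    intro p
    by_cases hp : p.1.1 = 0
    · rw [hU0 p hp]; simp
    · rw [map_mul, map_mul, mul_assoc]
      congr 1
      apply (hf _ hp).mul_left_cancel
      have h1 := congrArg f (hea p)
      have h2 := congrArg f (heb p)
      rw [map_mul, map_mul] at h1 h2
      rw [← h2, ← mul_assoc, ← h1, ← ha', mul_assoc, Units.mul_inv_cancel_left]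
  have h4 : f (s * b) = f (1 + s * a) * (↑a'⁻¹ * f b) := by
    have h5 : 1 + s * a = ∑ p ∈ I, U 0 p * (v p).1 := by rw [hsa]; abel
    rw [hsb, h5, map_sum, map_sum, Finset.sum_mul]
    exact Finset.sum_congr rfl (fun p _ => hterm p)
  rw [map_add, map_one, map_mul, map_mul, ← ha', add_mul, one_mul, mul_assoc (f s),
    Units.mul_inv_cancel_left] at h4
  have h5 : ↑a'⁻¹ * f b = 0 := by simpa using h4
  have h6 : IsUnit (↑a'⁻¹ * f b) := (a'⁻¹).isUnit.mul (hf b hb)
  rw [h5] at h6
  exact not_isUnit_zero h6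

end main

/-- An RD domain is (two-sided) Ore if and only if it embeds in a skew field, if and only if there
is a homomorphism to some nonzero ring that makes all its nonzero elements invertible. -/
theorem result (R : Type u) [Ring R] [IsDomain R] (hRD : IsRD R) :
    List.TFAE [
      ∀ a b : R, a ≠ 0 → b ≠ 0 →
        (∃ x y : R, x ≠ 0 ∧ y ≠ 0 ∧ a * x = b * y) ∧
        (∃ x y : R, x ≠ 0 ∧ y ≠ 0 ∧ x * a = y * b),
      ∃ (D : Type u) (_ : DivisionRing D) (f : R →+* D), Function.Injective f,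
      ∃ (S : Type u) (_ : Ring S) (_ : Nontrivial S) (f : R →+* S),
        ∀ r : R, r ≠ 0 → IsUnit (f r)] := by
  tfae_have 1 → 2 := by
    intro h
    have hore : ∀ (r : R) (s : nonZeroDivisors R), ∃ (r' : R) (s' : nonZeroDivisors R),
        (s' : R) * r = r' * s := by
      intro r s
      by_cases hr : r = 0
      · exact ⟨0, 1, by simp [hr]⟩
      · obtain ⟨x, y, hx, hy, hxy⟩ := (h r s hr (nonZeroDivisors.coe_ne_zero s)).2
        exact ⟨y, ⟨x, mem_nonZeroDivisors_of_ne_zero hx⟩, hxy⟩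
    choose num den hnd using hore
    let _ : OreLocalization.OreSet (nonZeroDivisors R) :=
      { ore_right_cancel := by
          intro r₁ r₂ s h
          exact ⟨1, by rw [mul_right_cancel₀ (nonZeroDivisors.coe_ne_zero s) h]⟩
        oreNum := num
        oreDenom := den
        ore_eq := hnd }
    refine ⟨OreLocalization (nonZeroDivisors R) R, inferInstance,
      OreLocalization.numeratorRingHom, ?_⟩
    exact OreLocalization.numeratorHom_inj (fun x hx => (mem_nonZeroDivisors_iff.1 hx).1)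
  tfae_have 2 → 3 := by
    rintro ⟨D, hD, f, hf⟩
    refine ⟨D, inferInstance, inferInstance, f, fun r hr => ?_⟩
    exact isUnit_iff_ne_zero.2 ((map_ne_zero_iff f hf).2 hr)
  tfae_have 3 → 1 := by
    rintro ⟨S, _, _, f, hf⟩ a b ha hb
    exact ⟨right_ore hRD f hf ha hb, left_ore hRD f hf ha hb⟩
  tfae_finish

end Pool.Agent.Results.MP_44b994_al.SkewFieldOre
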